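import Mathlib

set_option autoImplicit false

/-!
# HEX: a property of convex hexagons
-/

namespace Pool.Agent.W202.HEX

open Complex

/-- twice the signed area of the triangle `x y z` -/
def cr (x y z : ℂ) : ℝ := (y - x).re * (z - x).im - (y - x).im * (z - x).re

/-- cross product of vectors -/
def cx (u v : ℂ) : ℝ := u.re * v.im - u.im * v.re

theorem cx_eq {u v : ℂ} (hu : u ≠ 0) (hv : v ≠ 0) :
    cx u v = ‖u‖ * ‖v‖ * Real.sin (arg v - arg u) := by
  have h1 : 0 < ‖u‖ := norm_pos_iff.2 hu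
  have h2 : 0 < ‖v‖ := norm_pos_iff.2 hv
  rw [Real.sin_sub, Complex.sin_arg, Complex.sin_arg, Complex.cos_arg hu, Complex.cos_arg hv]
  unfold cx
  field_simp

theorem ne_left {u v : ℂ} (h : 0 < cx u v) : u ≠ 0 := by
  rintro rfl; simp [cx] at h

theorem ne_right {u v : ℂ} (h : 0 < cx u v) : v ≠ 0 := by
  rintro rfl; simp [cx] at h

theorem sin_pos_of_cx {u v : ℂ} (h : 0 < cx u v) : 0 < Real.sin (arg v - arg u) := by
  have hu := ne_left h
  have hv := ne_right h
  rw [cx_eq hu hv] at h
  have h1 : 0 < ‖u‖ * ‖v‖ := mul_pos (norm_pos_iff.2 hu) (norm_pos_iff.2 hv)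
  by_contra hc
  push Not at hc
  nlinarith

/-- localisation of an angle with positive sine -/
theorem loc {x : ℝ} (h : 0 < Real.sin x) (h1 : -Real.pi < x) (h2 : x < 2 * Real.pi) :
    0 < x ∧ x < Real.pi := by
  constructor
  · by_contra hc
    push Not at hc
    have : Real.sin x ≤ 0 := Real.sin_nonpos_of_nonpos_of_neg_pi_le hc h1.le
    linarith
  · by_contra hc
    push Not at hc
    have : Real.sin (x - Real.pi) = - Real.sin x := Real.sin_sub_pi x
    have h3 : 0 ≤ Real.sin (x - Real.pi) :=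
      Real.sin_nonneg_of_nonneg_of_le_pi (by linarith) (by linarith)
    linarith

/-- from a vector in the lower half plane -/
theorem low {u v : ℂ} (hu : arg u < 0) (h : 0 < cx u v) :
    0 < arg v - arg u ∧ arg v - arg u < Real.pi := by
  apply loc (sin_pos_of_cx h)
  · have := neg_pi_lt_arg v; linarith
  · have := arg_le_pi v; have := neg_pi_lt_arg u; linarith

/-- towards a vector in the upper half plane -/
theorem upp {u v : ℂ} (hv : 0 < arg v) (h : 0 < cx u v) :
    0 < arg v - arg u ∧ arg v - arg u < Real.pi := by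
  apply loc (sin_pos_of_cx h)
  · have := arg_le_pi u; linarith
  · have := arg_le_pi v; have := neg_pi_lt_arg u; linarith

theorem sub_formula (x y : ℝ) : Real.sin (x + y) - Real.sin y =
    2 * Real.sin (x / 2) * Real.cos ((x + 2 * y) / 2) := by
  rw [Real.sin_sub_sin]
  congr 2
  · congr 1; ring_nf
  · congr 1; ring

theorem sin_le {x y : ℝ} (hx : 0 < x) (hy : 0 < y) (hxy : x + y < Real.pi)
    (h : Real.sin (x + y) ≤ Real.sin y) : Real.pi ≤ x + 2 * y := by
  by_contra hc
  push Not at hc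
  have h1 : 0 < Real.sin (x / 2) := Real.sin_pos_of_pos_of_lt_pi (by linarith) (by linarith)
  have h2 : 0 < Real.cos ((x + 2 * y) / 2) :=
    Real.cos_pos_of_mem_Ioo ⟨by linarith [Real.pi_pos], by linarith⟩
  have := sub_formula x y
  have h3 := mul_pos h1 h2
  nlinarith

theorem sin_ge {x y : ℝ} (hx : 0 < x) (hy : 0 < y) (hxy : x + y < Real.pi)
    (h : Real.sin y ≤ Real.sin (x + y)) : x + 2 * y ≤ Real.pi := by
  by_contra hc
  push Not at hc
  have h1 : 0 < Real.sin (x / 2) := Real.sin_pos_of_pos_of_lt_pi (by linarith) (by linarith)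
  have h2 : Real.cos ((x + 2 * y) / 2) < 0 :=
    Real.cos_neg_of_pi_div_two_lt_of_lt (by linarith) (by linarith)
  have := sub_formula x y
  have h3 := mul_neg_of_pos_of_neg h1 h2
  nlinarith

/-- the sine rule -/
theorem rule {u v : ℂ} (h : 0 < cx u v) :
    0 < ‖u‖ ∧ 0 < ‖v‖ ∧ 0 < ‖u + v‖ ∧
    ‖u‖ * Real.sin (arg v - arg u) = ‖u + v‖ * Real.sin (arg v - arg (u + v)) ∧
    ‖v‖ * Real.sin (arg v - arg u) = ‖u + v‖ * Real.sin (arg (u + v) - arg u) := by
  have h1 : cx u (u + v) = cx u v := by unfold cx; simp; ring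
  have h2 : cx (u + v) v = cx u v := by unfold cx; simp; ring
  have hu := ne_left h
  have hv := ne_right h
  have huv : u + v ≠ 0 := ne_left (h2.symm ▸ h)
  have e0 := cx_eq hu hv
  have e1 := cx_eq hu huv
  have e2 := cx_eq huv hv
  have nu : 0 < ‖u‖ := norm_pos_iff.2 hu
  have nv : 0 < ‖v‖ := norm_pos_iff.2 hv
  have nuv : 0 < ‖u + v‖ := norm_pos_iff.2 huv
  refine ⟨nu, nv, nuv, ?_, ?_⟩
  · have : ‖v‖ * (‖u‖ * Real.sin (arg v - arg u)) =
        ‖v‖ * (‖u + v‖ * Real.sin (arg v - arg (u + v))) := by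
      rw [h2, e0] at e2
      linarith
    exact mul_left_cancel₀ nv.ne' this
  · have : ‖u‖ * (‖v‖ * Real.sin (arg v - arg u)) =
        ‖u‖ * (‖u + v‖ * Real.sin (arg (u + v) - arg u)) := by
      rw [h1, e0] at e1
      linarith
    exact mul_left_cancel₀ nu.ne' this

section tri

variable {u v : ℂ} (h : 0 < cx u v) (hx : 0 < arg (u + v) - arg u) (hy : 0 < arg v - arg (u + v))
  (hxy : arg v - arg u < Real.pi)

include h hx hy hxy

theorem t1 (hl : ‖u + v‖ ≤ ‖u‖) : Real.pi ≤ 2 * arg v - arg u - arg (u + v) := by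
  obtain ⟨nu, nv, nuv, r1, r2⟩ := rule h
  have e : arg v - arg u = (arg (u + v) - arg u) + (arg v - arg (u + v)) := by ring
  have hs : 0 < Real.sin (arg v - arg (u + v)) :=
    Real.sin_pos_of_pos_of_lt_pi hy (by linarith)
  have := sin_le hx hy (by linarith) (by
    rw [← e]
    by_contra hc
    push Not at hc
    nlinarith [mul_pos nu hs])
  linarith

theorem t3 (hl : ‖u‖ ≤ ‖u + v‖) : 2 * arg v - arg u - arg (u + v) ≤ Real.pi := by
  obtain ⟨nu, nv, nuv, r1, r2⟩ := rule h
  have e : arg v - arg u = (arg (u + v) - arg u) + (arg v - arg (u + v)) := by ring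
  have hs : 0 < Real.sin (arg v - arg (u + v)) :=
    Real.sin_pos_of_pos_of_lt_pi hy (by linarith)
  have := sin_ge hx hy (by linarith) (by
    rw [← e]
    by_contra hc
    push Not at hc
    nlinarith [mul_pos nu hs])
  linarith

theorem t2 (hl : ‖u + v‖ ≤ ‖v‖) : Real.pi ≤ arg v + arg (u + v) - 2 * arg u := by
  obtain ⟨nu, nv, nuv, r1, r2⟩ := rule h
  have e : arg v - arg u = (arg v - arg (u + v)) + (arg (u + v) - arg u) := by ring
  have hs : 0 < Real.sin (arg (u + v) - arg u) :=
    Real.sin_pos_of_pos_of_lt_pi hx (by linarith)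
  have := sin_le hy hx (by linarith) (by
    rw [← e]
    by_contra hc
    push Not at hc
    nlinarith [mul_pos nv hs])
  linarith

theorem t4 (hl : ‖v‖ ≤ ‖u + v‖) : arg v + arg (u + v) - 2 * arg u ≤ Real.pi := by
  obtain ⟨nu, nv, nuv, r1, r2⟩ := rule h
  have e : arg v - arg u = (arg v - arg (u + v)) + (arg (u + v) - arg u) := by ring
  have hs : 0 < Real.sin (arg (u + v) - arg u) :=
    Real.sin_pos_of_pos_of_lt_pi hx (by linarith)
  have := sin_ge hy hx (by linarith) (by
    rw [← e]
    by_contra hc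
    push Not at hc
    nlinarith [mul_pos nv hs])
  linarith

end tri

/-- triangle in the middle of the chain: the directions are ordered -/
theorem mid {u v ab ef : ℂ} (h : 0 < cx u v) (hab : arg ab < 0) (hef : 0 < arg ef)
    (h1 : 0 < cx ab u) (h2 : 0 < cx ab (u + v)) (h3 : 0 < cx v ef) (h4 : 0 < cx (u + v) ef) :
    0 < arg (u + v) - arg u ∧ 0 < arg v - arg (u + v) ∧ arg v - arg u < Real.pi := by
  have e1 : cx u (u + v) = cx u v := by unfold cx; simp; ring
  have e2 : cx (u + v) v = cx u v := by unfold cx; simp; ring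
  have s1 := sin_pos_of_cx (e1.symm ▸ h : 0 < cx u (u + v))
  have s2 := sin_pos_of_cx (e2.symm ▸ h : 0 < cx (u + v) v)
  have s3 := sin_pos_of_cx h
  have l1 := low hab h1
  have l2 := low hab h2
  have l3 := upp hef h3
  have l4 := upp hef h4
  have a1 := neg_pi_lt_arg u
  have a2 := arg_le_pi u
  have a3 := neg_pi_lt_arg v
  have a4 := arg_le_pi v
  have a5 := neg_pi_lt_arg (u + v)
  have a6 := arg_le_pi (u + v)
  have b1 := loc s1 (by linarith) (by linarith)
  have b2 := loc s2 (by linarith) (by linarith)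
  have b3 := loc s3 (by linarith) (by linarith)
  exact ⟨b1.1, b2.1, b3.2⟩

/-- HEX in a normalised position: `F - A` is a positive real number. -/
theorem hex0 {A B C D E F : ℂ} {r : ℝ} (hr : 0 < r) (hAF : F - A = r)
    (hABC : 0 < cr A B C) (hABD : 0 < cr A B D) (hABE : 0 < cr A B E) (hABF : 0 < cr A B F)
    (hACF : 0 < cr A C F) (hADF : 0 < cr A D F) (hAEF : 0 < cr A E F) (hBCE : 0 < cr B C E)
    (hBDE : 0 < cr B D E) (hBEF : 0 < cr B E F) (hCEF : 0 < cr C E F) (hDEF : 0 < cr D E F)
    (h1 : ‖D - A‖ ≤ ‖F - A‖) (h2 : ‖F - C‖ ≤ ‖F - A‖) : min ‖D - B‖ ‖E - C‖ < ‖E - B‖ := by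
  by_contra hcon
  push Not at hcon
  rw [le_min_iff] at hcon
  obtain ⟨h3, h4⟩ := hcon
  have argAF : arg (F - A) = 0 := by rw [hAF]; exact arg_ofReal_of_nonneg hr.le
  have reAF : (F - A).re = r := by rw [hAF]; simp
  have imAF : (F - A).im = 0 := by rw [hAF]; simp
  have neg : ∀ X : ℂ, 0 < cr A X F → arg (X - A) < 0 := by
    intro X hX
    rw [arg_neg_iff]
    unfold cr at hX
    rw [imAF, reAF] at hX
    nlinarith
  have posi : ∀ X : ℂ, 0 < cr A X F → 0 < arg (F - X) := by
    intro X hX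
    have h0 : (X - A).im < 0 := by
      unfold cr at hX
      rw [imAF, reAF] at hX
      nlinarith
    have him : 0 < (F - X).im := by
      simp only [sub_im] at *
      linarith
    rcases lt_trichotomy (arg (F - X)) 0 with h | h | h
    · rw [arg_neg_iff] at h; linarith
    · rw [arg_eq_zero_iff] at h; linarith [h.2]
    · exact h
  have nAB := neg B hABF
  have nAC := neg C hACF
  have nAD := neg D hADF
  have pCF := posi C hACF
  have pDF := posi D hADF
  have pEF := posi E hAEF
  -- the vectors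
  have e1 : (D - B) + (E - D) = E - B := by ring
  have e2 : (C - B) + (E - C) = E - B := by ring
  have e3 : (D - A) + (F - D) = F - A := by ring
  have e4 : (C - A) + (F - C) = F - A := by ring
  -- triangle BDE
  have c1 : 0 < cx (D - B) (E - D) := by
    have : cx (D - B) (E - D) = cr B D E := by unfold cx cr; simp; ring
    rw [this]; exact hBDE
  have m1 := mid c1 nAB pEF
    (by have : cx (B - A) (D - B) = cr A B D := by unfold cx cr; simp; ring
        rw [this]; exact hABD)
    (by rw [e1]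
        have : cx (B - A) (E - B) = cr A B E := by unfold cx cr; simp; ring
        rw [this]; exact hABE)
    (by have : cx (E - D) (F - E) = cr D E F := by unfold cx cr; simp; ring
        rw [this]; exact hDEF)
    (by rw [e1]
        have : cx (E - B) (F - E) = cr B E F := by unfold cx cr; simp; ring
        rw [this]; exact hBEF)
  have q1 := t1 c1 m1.1 m1.2.1 m1.2.2 (by rw [e1]; exact h3)
  -- triangle BCE
  have c2 : 0 < cx (C - B) (E - C) := by
    have : cx (C - B) (E - C) = cr B C E := by unfold cx cr; simp; ring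
    rw [this]; exact hBCE
  have m2 := mid c2 nAB pEF
    (by have : cx (B - A) (C - B) = cr A B C := by unfold cx cr; simp; ring
        rw [this]; exact hABC)
    (by rw [e2]
        have : cx (B - A) (E - B) = cr A B E := by unfold cx cr; simp; ring
        rw [this]; exact hABE)
    (by have : cx (E - C) (F - E) = cr C E F := by unfold cx cr; simp; ring
        rw [this]; exact hCEF)
    (by rw [e2]
        have : cx (E - B) (F - E) = cr B E F := by unfold cx cr; simp; ring
        rw [this]; exact hBEF)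
  have q2 := t2 c2 m2.1 m2.2.1 m2.2.2 (by rw [e2]; exact h4)
  -- triangle ADF
  have c3 : 0 < cx (D - A) (F - D) := by
    have : cx (D - A) (F - D) = cr A D F := by unfold cx cr; simp; ring
    rw [this]; exact hADF
  have l3 := low nAD c3
  have q3 := t3 c3 (by rw [e3, argAF]; linarith) (by rw [e3, argAF]; linarith) l3.2
    (by rw [e3]; exact h1)
  -- triangle ACF
  have c4 : 0 < cx (C - A) (F - C) := by
    have : cx (C - A) (F - C) = cr A C F := by unfold cx cr; simp; ring
    rw [this]; exact hACF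
  have l4 := low nAC c4
  have q4 := t4 c4 (by rw [e4, argAF]; linarith) (by rw [e4, argAF]; linarith) l4.2
    (by rw [e4]; exact h2)
  -- comparisons
  have k1 := (low nAD (by
    have : cx (D - A) (D - B) = cr A B D := by unfold cx cr; simp; ring
    rw [this]; exact hABD)).1
  have k2 := (low nAC (by
    have : cx (C - A) (C - B) = cr A B C := by unfold cx cr; simp; ring
    rw [this]; exact hABC)).1
  have k3 := (upp pDF (by
    have : cx (E - D) (F - D) = cr D E F := by unfold cx cr; simp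
    rw [this]; exact hDEF)).1
  have k4 := (upp pCF (by
    have : cx (E - C) (F - C) = cr C E F := by unfold cx cr; simp
    rw [this]; exact hCEF)).1
  rw [e1] at q1
  rw [e2] at q2
  rw [e3, argAF] at q3
  rw [e4, argAF] at q4
  linarith

/-- HEX: if `A B C D E F` is a convex hexagon (counterclockwise, `C = D` allowed) with
`|AD| ≤ |AF|` and `|CF| ≤ |AF|`, then `|BE| > min |BD| |CE|`. -/
theorem hex (A B C D E F : ℂ)
    (hABC : 0 < cr A B C) (hABD : 0 < cr A B D) (hABE : 0 < cr A B E) (hABF : 0 < cr A B F)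
    (hACF : 0 < cr A C F) (hADF : 0 < cr A D F) (hAEF : 0 < cr A E F) (hBCE : 0 < cr B C E)
    (hBDE : 0 < cr B D E) (hBEF : 0 < cr B E F) (hCEF : 0 < cr C E F) (hDEF : 0 < cr D E F)
    (h1 : ‖D - A‖ ≤ ‖F - A‖) (h2 : ‖F - C‖ ≤ ‖F - A‖) : min ‖D - B‖ ‖E - C‖ < ‖E - B‖ := by
  have hw : F - A ≠ 0 := by
    intro h
    have h' := congrArg Complex.re h
    have h'' := congrArg Complex.im h
    unfold cr at hABF
    rw [h', h''] at hABF
    simp at hABF
  set w := F - A with hwdef
  have nw : 0 < ‖w‖ := norm_pos_iff.2 hw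
  have hcr : ∀ X Y Z : ℂ, cr (X * starRingEnd ℂ w) (Y * starRingEnd ℂ w) (Z * starRingEnd ℂ w) =
      ‖w‖ ^ 2 * cr X Y Z := by
    intro X Y Z
    rw [Complex.sq_norm, Complex.normSq_apply]
    unfold cr
    simp
    ring
  have hpos : ∀ X Y Z : ℂ, 0 < cr X Y Z →
      0 < cr (X * starRingEnd ℂ w) (Y * starRingEnd ℂ w) (Z * starRingEnd ℂ w) := by
    intro X Y Z h
    rw [hcr]; positivity
  have hn : ∀ X Y : ℂ, ‖Y * starRingEnd ℂ w - X * starRingEnd ℂ w‖ = ‖Y - X‖ * ‖w‖ := by
    intro X Y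
    rw [← sub_mul, norm_mul, Complex.norm_conj]
  have hFA : F * starRingEnd ℂ w - A * starRingEnd ℂ w = ((‖w‖ ^ 2 : ℝ) : ℂ) := by
    rw [← sub_mul, ← hwdef, Complex.mul_conj, Complex.sq_norm]
  have := hex0 (r := ‖w‖ ^ 2) (by positivity) hFA (hpos _ _ _ hABC) (hpos _ _ _ hABD)
    (hpos _ _ _ hABE) (hpos _ _ _ hABF) (hpos _ _ _ hACF) (hpos _ _ _ hADF) (hpos _ _ _ hAEF)
    (hpos _ _ _ hBCE) (hpos _ _ _ hBDE) (hpos _ _ _ hBEF) (hpos _ _ _ hCEF) (hpos _ _ _ hDEF)
    (by rw [hn, hn]; exact mul_le_mul_of_nonneg_right h1 nw.le)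
    (by rw [hn, hn]; exact mul_le_mul_of_nonneg_right h2 nw.le)
  rw [hn, hn, hn, ← min_mul_of_nonneg _ _ nw.le] at this
  exact lt_of_mul_lt_mul_right this nw.le

end Pool.Agent.W202.HEX
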